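import Pool.Agent.Helper61.Tri.Goals2

/-! Packet E3. -/

set_option autoImplicit false

open Finset

namespace Pool.Agent.Helper49.Tri

open Pool.Agent.Helper61.Tri

open scoped Classical

theorem e3 : EPTools → Interleave → E3 := by
  intro T I s hs V _ G m x w hm hG g h hg hh hgh
  have hxw : ∀ i < m, ∀ j < m, x i ≠ w j := fun i hi j hj => (hG.adj i hi j hj).ne
  have hinter : ∀ (t : ℕ), t < m → ∀ S : Finset V, (∀ i ≤ t, x i ∈ S) →
      (∀ i < t, w i ∈ S ∧ g i i ∈ S ∧ h (i + 1) i ∈ S) → EP G (2 * t) (x 0) (x t) S := by
    intro t ht S hS1 hS2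
    refine I V G t x w (fun i => g i i) (fun i => h (i + 1) i) S ?_ ?_ ?_ ?_ ?_ ?_ ?_ hS1 hS2
    · intro i hi
      exact ⟨hG.adj i (by omega) i (by omega), hg.adjx i (by omega) i (by omega),
        hg.adjw i (by omega) i (by omega), (hG.adj (i + 1) (by omega) i (by omega)).symm,
        hh.adjw (i + 1) (by omega) i (by omega), hh.adjx (i + 1) (by omega) i (by omega)⟩
    · intro i hi j hj hij
      exact hG.injx i (by omega) j (by omega) hij
    · intro i hi j hj hij
      exact hG.injw i (by omega) j (by omega) hij
    · intro i hi j hj hij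
      by_contra hne
      exact hg.di i (by omega) i (by omega) j (by omega) j (by omega) hne hne hij
    · intro i hi j hj hij
      by_contra hne
      exact hh.di (i + 1) (by omega) i (by omega) (j + 1) (by omega) j (by omega) (by omega)
        hne hij
    · intro i hi j hj
      exact ⟨hxw i (by omega) j (by omega),
        (hg.nx j (by omega) j (by omega) i (by omega) i (by omega)).symm,
        (hh.nx (j + 1) (by omega) j (by omega) i (by omega) i (by omega)).symm⟩
    · intro i hi j hj
      exact ⟨(hg.nw j (by omega) j (by omega) i (by omega) i (by omega)).symm,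
        (hh.nw (j + 1) (by omega) j (by omega) i (by omega) i (by omega)).symm,
        hgh i (by omega) i (by omega) (j + 1) (by omega) j (by omega)⟩
  constructor
  · exact ⟨x 0, x (s + 1), univ, hinter (s + 1) (by omega) univ (fun _ _ => mem_univ _)
      (fun _ _ => ⟨mem_univ _, mem_univ _, mem_univ _⟩)⟩
  · set S1 : Finset V := (range (s + 1)).image x ∪ (range s).image w ∪
      (range s).image (fun i => g i i) ∪ (range s).image (fun i => h (i + 1) i) with hS1
    have hmem : ∀ v, v ∈ S1 ↔ (∃ i < s + 1, x i = v) ∨ (∃ i < s, w i = v) ∨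
        (∃ i < s, g i i = v) ∨ (∃ i < s, h (i + 1) i = v) := by
      intro v
      simp only [hS1, Finset.mem_union, Finset.mem_image, Finset.mem_range]
      rw [or_assoc, or_assoc]
    have h1 : EP G (2 * s) (x 0) (x s) S1 := by
      refine hinter s (by omega) S1 (fun i hi => ?_) (fun i hi => ⟨?_, ?_, ?_⟩)
      · exact (hmem _).2 (Or.inl ⟨i, by omega, rfl⟩)
      · exact (hmem _).2 (Or.inr (Or.inl ⟨i, hi, rfl⟩))
      · exact (hmem _).2 (Or.inr (Or.inr (Or.inl ⟨i, hi, rfl⟩)))
      · exact (hmem _).2 (Or.inr (Or.inr (Or.inr ⟨i, hi, rfl⟩)))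
    have h2 : EP G 1 (x s) (w s) {x s, w s, g s s} :=
      T.single (hG.adj s (by omega) s (by omega)) (hg.adjx s (by omega) s (by omega))
        (hg.adjw s (by omega) s (by omega))
    have hws : w s ∉ S1 := by
      intro hc
      rcases (hmem _).1 hc with ⟨i, hi, e⟩ | ⟨i, hi, e⟩ | ⟨i, hi, e⟩ | ⟨i, hi, e⟩
      · exact hxw i (by omega) s (by omega) e
      · exact absurd (hG.injw i (by omega) s (by omega) e) (by omega)
      · exact hg.nw i (by omega) i (by omega) s (by omega) s (by omega) e
      · exact hh.nw (i + 1) (by omega) i (by omega) s (by omega) s (by omega) e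
    have hgs : g s s ∉ S1 := by
      intro hc
      rcases (hmem _).1 hc with ⟨i, hi, e⟩ | ⟨i, hi, e⟩ | ⟨i, hi, e⟩ | ⟨i, hi, e⟩
      · exact hg.nx s (by omega) s (by omega) i (by omega) i (by omega) e.symm
      · exact hg.nw s (by omega) s (by omega) i (by omega) i (by omega) e.symm
      · exact hg.di i (by omega) i (by omega) s (by omega) s (by omega) (by omega) (by omega) e
      · exact hgh s (by omega) s (by omega) (i + 1) (by omega) i (by omega) e.symm
    have h3 : EP G (2 * s + 1) (x 0) (w s) (S1 ∪ {x s, w s, g s s}) := by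
      refine T.trans h1 h2 ?_
      intro v hv
      rw [Finset.mem_inter] at hv
      obtain ⟨hv1, hv2⟩ := hv
      simp only [Finset.mem_insert, Finset.mem_singleton] at hv2
      rcases hv2 with rfl | rfl | rfl
      · exact Finset.mem_singleton_self _
      · exact absurd hv1 hws
      · exact absurd hv1 hgs
    refine ⟨x 0, w s, h 0 s, S1 ∪ {x s, w s, g s s}, h3, hG.adj 0 (by omega) s (by omega),
      hh.adjx 0 (by omega) s (by omega), hh.adjw 0 (by omega) s (by omega), ?_⟩
    intro hc
    rw [Finset.mem_union] at hc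
    rcases hc with hc | hc
    · rcases (hmem _).1 hc with ⟨i, hi, e⟩ | ⟨i, hi, e⟩ | ⟨i, hi, e⟩ | ⟨i, hi, e⟩
      · exact hh.nx 0 (by omega) s (by omega) i (by omega) i (by omega) e.symm
      · exact hh.nw 0 (by omega) s (by omega) i (by omega) i (by omega) e.symm
      · exact hgh i (by omega) i (by omega) 0 (by omega) s (by omega) e
      · exact hh.di (i + 1) (by omega) i (by omega) 0 (by omega) s (by omega) (by omega)
          (by omega) e
    · simp only [Finset.mem_insert, Finset.mem_singleton] at hc
      rcases hc with e | e | e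
      · exact hh.nx 0 (by omega) s (by omega) s (by omega) s (by omega) e
      · exact hh.nw 0 (by omega) s (by omega) s (by omega) s (by omega) e
      · exact hgh s (by omega) s (by omega) 0 (by omega) s (by omega) e.symm

end Pool.Agent.Helper49.Tri
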