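import Pool.Agent.Helper61.Tri.Goals2

/-! Packet UEVEN. -/

set_option autoImplicit false

open Finset

namespace Pool.Agent.Helper49.Tri

open Pool.Agent.Helper61.Tri

open scoped Classical

section count

variable {V : Type} [Fintype V]

theorem mem_oe {G : SimpleGraph V} {a b : V} : (a, b) ∈ oe G ↔ G.Adj a b := by
  simp [oe]

theorem mem_ot {G : SimpleGraph V} {a b c : V} :
    (a, b, c) ∈ ot G ↔ G.Adj a b ∧ G.Adj a c ∧ G.Adj b c := by
  simp [ot]

theorem mem_nb {G : SimpleGraph V} {a b : V} : b ∈ nb G a ↔ G.Adj a b := by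
  simp [nb]

/-- all triangles of `G'` contain the edge `p u` -/
theorem ot_le {G' : SimpleGraph V} {p u : V} (hpu : G'.Adj p u)
    (hT : ∀ a b c, G'.Adj a b → G'.Adj a c → G'.Adj b c →
      (p = a ∨ p = b ∨ p = c) ∧ (u = a ∨ u = b ∨ u = c)) :
    (ot G').card ≤ 6 * (nb G' p).card := by
  set N := nb G' p with hN
  have hsub : ot G' ⊆ (N.image fun y => (p, u, y)) ∪ ((N.image fun y => (p, y, u)) ∪
      ((N.image fun y => (u, p, y)) ∪ ((N.image fun y => (u, y, p)) ∪
      ((N.image fun y => (y, p, u)) ∪ (N.image fun y => (y, u, p)))))) := by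
    rintro ⟨a, b, c⟩ h
    obtain ⟨h1, h2, h3⟩ := mem_ot.1 h
    obtain ⟨hp, hu⟩ := hT a b c h1 h2 h3
    have hne : p ≠ u := hpu.ne
    simp only [Finset.mem_union, Finset.mem_image, hN, mem_nb]
    rcases hp with rfl | rfl | rfl
    · rcases hu with rfl | rfl | rfl
      · exact absurd rfl hne
      · exact Or.inl ⟨c, h2, rfl⟩
      · exact Or.inr (Or.inl ⟨b, h1, rfl⟩)
    · rcases hu with rfl | rfl | rfl
      · exact Or.inr (Or.inr (Or.inl ⟨c, h3, rfl⟩))
      · exact absurd rfl hne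
      · exact Or.inr (Or.inr (Or.inr (Or.inr (Or.inl ⟨a, h1.symm, rfl⟩))))
    · rcases hu with rfl | rfl | rfl
      · exact Or.inr (Or.inr (Or.inr (Or.inl ⟨b, h3.symm, rfl⟩)))
      · exact Or.inr (Or.inr (Or.inr (Or.inr (Or.inr ⟨a, h2.symm, rfl⟩))))
      · exact absurd rfl hne
  have h0 := Finset.card_le_card hsub
  have k1 : (N.image fun y => (p, u, y)).card ≤ N.card := Finset.card_image_le
  have k2 : (N.image fun y => (p, y, u)).card ≤ N.card := Finset.card_image_le
  have k3 : (N.image fun y => (u, p, y)).card ≤ N.card := Finset.card_image_le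
  have k4 : (N.image fun y => (u, y, p)).card ≤ N.card := Finset.card_image_le
  have k5 : (N.image fun y => (y, p, u)).card ≤ N.card := Finset.card_image_le
  have k6 : (N.image fun y => (y, u, p)).card ≤ N.card := Finset.card_image_le
  have l5 := Finset.card_union_le (N.image fun y => (y, p, u)) (N.image fun y => (y, u, p))
  have l4 := Finset.card_union_le (N.image fun y => (u, y, p))
    ((N.image fun y => (y, p, u)) ∪ (N.image fun y => (y, u, p)))
  have l3 := Finset.card_union_le (N.image fun y => (u, p, y)) ((N.image fun y => (u, y, p)) ∪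
    ((N.image fun y => (y, p, u)) ∪ (N.image fun y => (y, u, p))))
  have l2 := Finset.card_union_le (N.image fun y => (p, y, u)) ((N.image fun y => (u, p, y)) ∪
    ((N.image fun y => (u, y, p)) ∪
    ((N.image fun y => (y, p, u)) ∪ (N.image fun y => (y, u, p)))))
  have l1 := Finset.card_union_le (N.image fun y => (p, u, y)) ((N.image fun y => (p, y, u)) ∪
    ((N.image fun y => (u, p, y)) ∪ ((N.image fun y => (u, y, p)) ∪
    ((N.image fun y => (y, p, u)) ∪ (N.image fun y => (y, u, p))))))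
  omega

/-- the pairs counted for exactly one vertex in `X` -/
noncomputable def AA (G' : SimpleGraph V) (X : Finset V) (x0 p : V) : Finset (V × V × V) :=
  (X ×ˢ oe G').filter fun t => ¬ (t.1 = x0 ∧ (t.2.1 = p ∨ t.2.2 = p))

theorem AA_card {G' : SimpleGraph V} {X : Finset V} {x0 p : V} (hx0 : x0 ∈ X) :
    (AA G' X x0 p).card + 2 * (nb G' p).card ≤ X.card * (oe G').card := by
  have h1 : (AA G' X x0 p).card +
      ((X ×ˢ oe G').filter fun t => (t.1 = x0 ∧ (t.2.1 = p ∨ t.2.2 = p))).card =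
      X.card * (oe G').card := by
    rw [← Finset.card_product, add_comm]
    exact Finset.card_filter_add_card_filter_not _
  have h2 : 2 * (nb G' p).card ≤
      ((X ×ˢ oe G').filter fun t => (t.1 = x0 ∧ (t.2.1 = p ∨ t.2.2 = p))).card := by
    have hsub : (nb G' p).image (fun y => (x0, p, y)) ∪ (nb G' p).image (fun y => (x0, y, p)) ⊆
        (X ×ˢ oe G').filter fun t => (t.1 = x0 ∧ (t.2.1 = p ∨ t.2.2 = p)) := by
      rintro ⟨a, b, c⟩ h
      simp only [Finset.mem_union, Finset.mem_image, mem_nb] at h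
      rw [Finset.mem_filter, Finset.mem_product]
      rcases h with ⟨y, hy, e⟩ | ⟨y, hy, e⟩
      · obtain ⟨rfl, rfl, rfl⟩ : x0 = a ∧ p = b ∧ y = c := by simpa using e
        exact ⟨⟨hx0, mem_oe.2 hy⟩, rfl, Or.inl rfl⟩
      · obtain ⟨rfl, rfl, rfl⟩ : x0 = a ∧ y = b ∧ p = c := by simpa using e
        exact ⟨⟨hx0, mem_oe.2 hy.symm⟩, rfl, Or.inr rfl⟩
    have hd : Disjoint ((nb G' p).image (fun y => (x0, p, y)))
        ((nb G' p).image (fun y => (x0, y, p))) := by
      rw [Finset.disjoint_left]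
      rintro ⟨a, b, c⟩ h1 h2
      simp only [Finset.mem_image, mem_nb] at h1 h2
      obtain ⟨y, hy, e⟩ := h1
      obtain ⟨z, hz, e'⟩ := h2
      obtain ⟨rfl, rfl, rfl⟩ : x0 = a ∧ p = b ∧ y = c := by simpa using e
      have h3 : z = p ∧ p = y := by simpa using e'
      exact hy.ne h3.2
    have h3 := Finset.card_le_card hsub
    rw [Finset.card_union_of_disjoint hd, Finset.card_image_of_injective _ (fun y z h => by
      simpa using h), Finset.card_image_of_injective _ (fun y z h => by simpa using h)] at h3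
    omega
  omega

theorem ot_count {G : SimpleGraph V} {X : Finset V} {x0 p : V} (hx0 : x0 ∈ X)
    (hpx : ¬ G.Adj p x0) :
    (ot G).card + 6 * (nb (within G Xᶜ) p).card ≤ (ot (within G Xᶜ)).card +
      3 * (X.card * (oe (within G Xᶜ)).card) + 3 * ((X.card * X.card - X.card) * (Xᶜ).card) +
      X.card * (X.card * X.card) := by
  set G' := within G Xᶜ with hG'
  have hadj : ∀ a b, a ∉ X → b ∉ X → G.Adj a b → G'.Adj a b := fun a b ha hb h =>
    ⟨h, by simpa using ha, by simpa using hb⟩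
  set A := AA G' X x0 p with hA
  set B : Finset ((V × V) × V) := X.offDiag ×ˢ Xᶜ with hB
  have hAmem : ∀ a b c, a ∈ X → b ∉ X → c ∉ X → G.Adj a b → G.Adj a c → G.Adj b c →
      (a, b, c) ∈ A := by
    intro a b c ha hb hc h1 h2 h3
    rw [hA, AA, Finset.mem_filter, Finset.mem_product]
    refine ⟨⟨ha, mem_oe.2 (hadj b c hb hc h3)⟩, ?_⟩
    rintro ⟨e1, e2⟩
    simp only at e1 e2
    subst e1
    rcases e2 with e | e
    · subst e
      exact hpx h1.symm
    · subst e
      exact hpx h2.symm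
  have hBmem : ∀ a b c, a ∈ X → b ∈ X → c ∉ X → a ≠ b → ((a, b), c) ∈ B := by
    intro a b c ha hb hc hne
    rw [hB, Finset.mem_product, Finset.mem_offDiag]
    exact ⟨⟨ha, hb, hne⟩, by simpa using hc⟩
  have hsub : ot G ⊆ ot G' ∪ (A ∪ (A.image (fun t => (t.2.1, t.1, t.2.2)) ∪
      (A.image (fun t => (t.2.1, t.2.2, t.1)) ∪ (B.image (fun t => (t.1.1, t.1.2, t.2)) ∪
      (B.image (fun t => (t.1.1, t.2, t.1.2)) ∪ (B.image (fun t => (t.2, t.1.1, t.1.2)) ∪
      (X ×ˢ (X ×ˢ X)))))))) := by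
    rintro ⟨a, b, c⟩ h
    obtain ⟨h1, h2, h3⟩ := mem_ot.1 h
    simp only [Finset.mem_union, Finset.mem_image]
    by_cases ha : a ∈ X
    · by_cases hb : b ∈ X
      · by_cases hc : c ∈ X
        · iterate 7 right
          simp [ha, hb, hc]
        · iterate 4 right
          left
          exact ⟨_, hBmem a b c ha hb hc h1.ne, rfl⟩
      · by_cases hc : c ∈ X
        · iterate 5 right
          left
          exact ⟨_, hBmem a c b ha hc hb h2.ne, rfl⟩
        · right
          left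
          exact hAmem a b c ha hb hc h1 h2 h3
    · by_cases hb : b ∈ X
      · by_cases hc : c ∈ X
        · iterate 6 right
          left
          exact ⟨_, hBmem b c a hb hc ha h3.ne, rfl⟩
        · iterate 2 right
          left
          exact ⟨_, hAmem b a c hb ha hc h1.symm h3 h2, rfl⟩
      · by_cases hc : c ∈ X
        · iterate 3 right
          left
          exact ⟨_, hAmem c a b hc ha hb h2.symm h3.symm h1, rfl⟩
        · left
          exact mem_ot.2 ⟨hadj a b ha hb h1, hadj a c ha hc h2, hadj b c hb hc h3⟩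
  have h0 := Finset.card_le_card hsub
  have kA : A.card + 2 * (nb G' p).card ≤ X.card * (oe G').card := AA_card hx0
  have kB : B.card = (X.card * X.card - X.card) * (Xᶜ).card := by
    rw [hB, Finset.card_product, Finset.offDiag_card]
  have kX : (X ×ˢ (X ×ˢ X)).card = X.card * (X.card * X.card) := by
    rw [Finset.card_product, Finset.card_product]
  have k1 : (A.image (fun t => (t.2.1, t.1, t.2.2))).card ≤ A.card := Finset.card_image_le
  have k2 : (A.image (fun t => (t.2.1, t.2.2, t.1))).card ≤ A.card := Finset.card_image_le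
  have k3 : (B.image (fun t => (t.1.1, t.1.2, t.2))).card ≤ B.card := Finset.card_image_le
  have k4 : (B.image (fun t => (t.1.1, t.2, t.1.2))).card ≤ B.card := Finset.card_image_le
  have k5 : (B.image (fun t => (t.2, t.1.1, t.1.2))).card ≤ B.card := Finset.card_image_le
  have l7 := Finset.card_union_le (B.image (fun t => (t.2, t.1.1, t.1.2))) (X ×ˢ (X ×ˢ X))
  have l6 := Finset.card_union_le (B.image (fun t => (t.1.1, t.2, t.1.2)))
    (B.image (fun t => (t.2, t.1.1, t.1.2)) ∪ (X ×ˢ (X ×ˢ X)))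
  have l5 := Finset.card_union_le (B.image (fun t => (t.1.1, t.1.2, t.2)))
    (B.image (fun t => (t.1.1, t.2, t.1.2)) ∪
    (B.image (fun t => (t.2, t.1.1, t.1.2)) ∪ (X ×ˢ (X ×ˢ X))))
  have l4 := Finset.card_union_le (A.image (fun t => (t.2.1, t.2.2, t.1)))
    (B.image (fun t => (t.1.1, t.1.2, t.2)) ∪ (B.image (fun t => (t.1.1, t.2, t.1.2)) ∪
    (B.image (fun t => (t.2, t.1.1, t.1.2)) ∪ (X ×ˢ (X ×ˢ X)))))
  have l3 := Finset.card_union_le (A.image (fun t => (t.2.1, t.1, t.2.2)))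
    (A.image (fun t => (t.2.1, t.2.2, t.1)) ∪
    (B.image (fun t => (t.1.1, t.1.2, t.2)) ∪ (B.image (fun t => (t.1.1, t.2, t.1.2)) ∪
    (B.image (fun t => (t.2, t.1.1, t.1.2)) ∪ (X ×ˢ (X ×ˢ X))))))
  have l2 := Finset.card_union_le A (A.image (fun t => (t.2.1, t.1, t.2.2)) ∪
    (A.image (fun t => (t.2.1, t.2.2, t.1)) ∪
    (B.image (fun t => (t.1.1, t.1.2, t.2)) ∪ (B.image (fun t => (t.1.1, t.2, t.1.2)) ∪
    (B.image (fun t => (t.2, t.1.1, t.1.2)) ∪ (X ×ˢ (X ×ˢ X)))))))
  have l1 := Finset.card_union_le (ot G') (A ∪ (A.image (fun t => (t.2.1, t.1, t.2.2)) ∪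
    (A.image (fun t => (t.2.1, t.2.2, t.1)) ∪
    (B.image (fun t => (t.1.1, t.1.2, t.2)) ∪ (B.image (fun t => (t.1.1, t.2, t.1.2)) ∪
    (B.image (fun t => (t.2, t.1.1, t.1.2)) ∪ (X ×ˢ (X ×ˢ X))))))))
  rw [← kB, ← kX]
  omega

/-- the graph without the edge `p u` -/
def del (G' : SimpleGraph V) (p u : V) : SimpleGraph V where
  Adj a b := G'.Adj a b ∧ ¬ (a = p ∧ b = u) ∧ ¬ (a = u ∧ b = p)
  symm := ⟨fun _ _ h => ⟨h.1.symm, fun h2 => h.2.2 ⟨h2.2, h2.1⟩, fun h2 => h.2.1 ⟨h2.2, h2.1⟩⟩⟩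
  loopless := ⟨fun _ h => G'.loopless.irrefl _ h.1⟩

theorem oe_bound (hTF : TFmax) {G : SimpleGraph V} {X : Finset V} {p u : V} (hp : p ∉ X)
    (hpu : (within G Xᶜ).Adj p u)
    (hT : ∀ a b c, (within G Xᶜ).Adj a b → (within G Xᶜ).Adj a c → (within G Xᶜ).Adj b c →
      (p = a ∨ p = b ∨ p = c) ∧ (u = a ∨ u = b ∨ u = c)) :
    ((oe (within G Xᶜ)).card : ℝ) ≤ ((Xᶜ).card : ℝ) ^ 2 / 2 + 2 := by
  set G' := within G Xᶜ with hG'
  set J := del G' p u with hJ
  have hne : p ≠ u := hpu.ne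
  have hJTF : TF J := by
    intro a b c h1 h2 h3
    obtain ⟨g1, g2⟩ := hT a b c h1.1 h2.1 h3.1
    rcases g1 with rfl | rfl | rfl
    · rcases g2 with rfl | rfl | rfl
      · exact hne rfl
      · exact h1.2.1 ⟨rfl, rfl⟩
      · exact h2.2.1 ⟨rfl, rfl⟩
    · rcases g2 with rfl | rfl | rfl
      · exact h1.2.2 ⟨rfl, rfl⟩
      · exact hne rfl
      · exact h3.2.1 ⟨rfl, rfl⟩
    · rcases g2 with rfl | rfl | rfl
      · exact h2.2.2 ⟨rfl, rfl⟩
      · exact h3.2.2 ⟨rfl, rfl⟩
      · exact hne rfl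
  have hJW : ∀ a b, J.Adj a b → a ∈ Xᶜ := fun a b h => h.1.2.1
  obtain ⟨z, hz, hzmax⟩ := Finset.exists_max_image Xᶜ (fun v => (nb J v).card)
    ⟨p, by simpa using hp⟩
  have hmax : ∀ v, (nb J v).card ≤ (nb J z).card := by
    intro v
    by_cases hv : v ∈ Xᶜ
    · exact hzmax v hv
    · have : nb J v = ∅ := by
        rw [Finset.eq_empty_iff_forall_notMem]
        intro w hw
        exact hv (hJW v w (mem_nb.1 hw))
      rw [this]
      simp
  obtain ⟨h1, h2, -⟩ := hTF V J Xᶜ hJTF hJW z hz hmax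
  have h3 : (oe G').card ≤ (oe J).card + 2 := by
    have hsub : oe G' ⊆ oe J ∪ {(p, u), (u, p)} := by
      rintro ⟨a, b⟩ h
      have h4 := mem_oe.1 h
      rw [Finset.mem_union, mem_oe]
      by_cases c1 : a = p ∧ b = u
      · right
        simp [c1.1, c1.2]
      · by_cases c2 : a = u ∧ b = p
        · right
          simp [c2.1, c2.2]
        · left
          exact ⟨h4, c1, c2⟩
    refine (Finset.card_le_card hsub).trans ((Finset.card_union_le _ _).trans ?_)
    have := Finset.card_le_two (a := ((p, u) : V × V)) (b := (u, p))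
    omega
  have h4 : ((oe J).card : ℝ) ≤ 2 * (((nb J z).card : ℝ) *
      (((Xᶜ).card : ℝ) - ((nb J z).card : ℝ))) := by
    have := (Nat.cast_le (α := ℝ)).2 h2
    rw [Nat.cast_mul, Nat.cast_mul, Nat.cast_sub h1] at this
    exact_mod_cast this
  have h5 : ((oe G').card : ℝ) ≤ ((oe J).card : ℝ) + 2 := by exact_mod_cast h3
  nlinarith [sq_nonneg (((Xᶜ).card : ℝ) - 2 * ((nb J z).card : ℝ))]

end count

theorem ueven : TFmax → UEvenA → UEven := by
  intro hTF hA s hs κ hκ C
  obtain ⟨ε, hε, n0, H⟩ := hA s hs κ hκ C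
  refine ⟨ε, hε, max n0 (s + (6 * s + s * (s * s) + 1)), ?_⟩
  intro V _ hn G X hhas hX hU hnb htr hot
  rcases H V ((le_max_left _ _).trans hn) G X hhas hX hU hnb htr (within G Xᶜ) rfl with h | h
  · exact h
  exfalso
  obtain ⟨p, u, x0, hp, hx0, hpx, hpu, hT⟩ := h
  have hn2 : s + (6 * s + s * (s * s) + 1) ≤ Fintype.card V := (le_max_right _ _).trans hn
  have h1 := ot_count (G := G) hx0 hpx
  have h2 := ot_le hpu hT
  have h3 := oe_bound hTF hp hpu hT
  have hm : (Xᶜ).card = Fintype.card V - s := by rw [Finset.card_compl, hX]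
  have hmR : (((Xᶜ).card : ℕ) : ℝ) = (Fintype.card V : ℝ) - s := by
    rw [hm, Nat.cast_sub (by omega)]
  have hlow := hot _ hmR
  rw [hX] at h1
  set m : ℝ := ((Xᶜ).card : ℝ) with hmdef
  set o : ℝ := ((oe (within G Xᶜ)).card : ℝ) with ho
  have hss : ((s * s - s : ℕ) : ℝ) = (s : ℝ) * s - s := by
    rw [Nat.cast_sub (Nat.le_mul_self s), Nat.cast_mul]
  have h4 : ((ot G).card : ℝ) + 6 * ((nb (within G Xᶜ) p).card : ℝ) ≤
      ((ot (within G Xᶜ)).card : ℝ) + 3 * ((s : ℝ) * o) +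
      3 * (((s : ℝ) * s - s) * m) + (s : ℝ) * (s * s) := by
    have h1' := (Nat.cast_le (α := ℝ)).2 h1
    simp only [Nat.cast_add, Nat.cast_mul, hss, Nat.cast_ofNat] at h1'
    exact h1'
  have h5 : ((ot (within G Xᶜ)).card : ℝ) ≤ 6 * ((nb (within G Xᶜ) p).card : ℝ) := by
    exact_mod_cast h2
  have hs0 : (2 : ℝ) ≤ (s : ℝ) := by exact_mod_cast hs
  have h6 : (s : ℝ) * o ≤ (s : ℝ) * (m ^ 2 / 2 + 2) :=
    mul_le_mul_of_nonneg_left h3 (by linarith)
  have h7 : (6 * (s : ℝ) + (s : ℝ) * (s * s) + 1) ≤ m := by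
    have h8 : ((s + (6 * s + s * (s * s) + 1) : ℕ) : ℝ) ≤ (Fintype.card V : ℝ) := by
      exact_mod_cast hn2
    push_cast at h8
    rw [hmR]
    linarith
  nlinarith

end Pool.Agent.Helper49.Tri
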